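import Mathlib
import Pool.Agent.Q84.Fermat.Main

set_option autoImplicit false

universe u

namespace Pool.Agent.Results.MP_4362c3_ag.FermatReciprocals

open MvPolynomial

/-- The field of rational functions `k(x_1, ..., x_m)`. -/
abbrev RatFun (k : Type u) [Field k] (m : ℕ) : Type u := FractionRing (MvPolynomial (Fin m) k)

/-- The variable `x_i` as a rational function. -/
noncomputable def x (k : Type u) [Field k] (m : ℕ) (i : Fin m) : RatFun k m :=
  algebraMap (MvPolynomial (Fin m) k) (RatFun k m) (X i)

/-- The derivations `D_1, ..., D_m` of `k(x_1, ..., x_m)` over `k` are the partial derivations: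
`D_i x_j` is `1` if `i = j` and `0` otherwise (this determines them). -/
def ArePartials {k : Type u} [Field k] {m : ℕ}
    (D : Fin m → Derivation k (RatFun k m) (RatFun k m)) : Prop :=
  ∀ i j, D i (x k m j) = if i = j then 1 else 0

/-- **Reciprocals of Fermat polynomials.** Let `k` be a field of characteristic zero and `m ≥ 1`.
The partial derivations of `k(x_1, ..., x_m)` exist, and for every `n` the rational function
`1 / (x_1 ^ n + ... + x_m ^ n)` is a sum `D_1 u_1 + ... + D_m u_m` if and only if `n ≠ m`. -/
theorem result (k : Type u) [Field k] [CharZero k] (m : ℕ) (hm : 1 ≤ m) :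
    (∃ D : Fin m → Derivation k (RatFun k m) (RatFun k m), ArePartials D) ∧
    ∀ D : Fin m → Derivation k (RatFun k m) (RatFun k m), ArePartials D → ∀ n : ℕ,
      (∃ u : Fin m → RatFun k m, 1 / (∑ i, x k m i ^ n) = ∑ i, D i (u i)) ↔ n ≠ m := by
  refine ⟨Pool.Agent.Q84.Fermat.exists_partials, fun D hD n => ?_⟩
  constructor
  · rintro ⟨u, hu⟩ rfl
    exact Pool.Agent.Q84.Fermat.not_integrable (D := D) hD hm u hu
  · intro hn
    exact Pool.Agent.Q84.Fermat.integrable (D := D) hD n hn

end Pool.Agent.Results.MP_4362c3_ag.FermatReciprocals
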